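import Pool.Agent.Helper73.HM.St

/-! HM MODULE DJ: at most `cof σ` disjoint stationary subsets of `σ`. -/

set_option autoImplicit false

namespace Pool.Agent.Helper66.HM

open Ordinal Cardinal ZFSet Order Pool.Agent.Helper73.HODC Pool.Agent.Helper73.HE
  Pool.Agent.Helper73.HM

theorem club_of_cofinal {σ : Ordinal.{0}} (hσ : ℵ₀ < σ.cof) {s : Set Ordinal.{0}}
    (hs : ∀ a < σ, ∃ b ∈ s, a < b ∧ b < σ) : Club {a | a ≠ 0 ∧ UnbIn s a} σ := by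
  classical
  have hF : ∀ x : Ordinal.{0}, ∃ y, x < σ → y ∈ s ∧ x < y ∧ y < σ := by
    intro x
    by_cases hx : x < σ
    · obtain ⟨b, hb, h1, h2⟩ := hs x hx
      exact ⟨b, fun _ => ⟨hb, h1, h2⟩⟩
    · exact ⟨0, fun h => absurd h hx⟩
  choose F hF using hF
  refine ⟨?_, ?_⟩
  · intro a ha
    obtain ⟨t, h1, h2, -, h3⟩ := exists_lim hσ F (fun x hx => (hF x hx).2) a ha
    refine ⟨t, ⟨(pos_of_gt h1).ne', ?_⟩, h1, h2⟩
    intro b hb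
    obtain ⟨x, hbx, hx, hxt⟩ := h3 b hb
    exact ⟨F x, (hF x hx).1, hbx.trans (hF x hx).2.1, hxt⟩
  · intro a _ ha0 hun
    refine ⟨ha0, ?_⟩
    intro b hb
    obtain ⟨e, he, h1, h2⟩ := hun b hb
    obtain ⟨c, hc, h3, h4⟩ := he.2 b h1
    exact ⟨c, hc, h3, h4.trans h2⟩

theorem dj : StDJ := by
  classical
  intro σ Y S hσ hst hdis
  obtain ⟨ι, f, hf, hι⟩ := exists_lsub_cof σ
  have hlim := isSuccLimit_of_cof hσ
  have hlt : ∀ i, f i < σ := fun i => hf ▸ lt_lsub f i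
  have hcof : ∀ a < σ, ∃ i, a ≤ f i := fun a ha => lt_lsub_iff.1 (hf.symm ▸ ha)
  have hE : Club {a | a ≠ 0 ∧ UnbIn (Set.range f) a} σ := by
    refine club_of_cofinal hσ fun a ha => ?_
    obtain ⟨i, hi⟩ := hcof (succ a) (hlim.succ_lt ha)
    exact ⟨f i, ⟨i, rfl⟩, (lt_succ a).trans_le hi, hlt i⟩
  have hch : ∀ ξ : Y, ∃ a, a ∈ S ξ ∧ (a ≠ 0 ∧ UnbIn (Set.range f) a) ∧ a < σ := by
    intro ξ
    obtain ⟨a, h1, h2, h3⟩ := hst ξ ξ.2 _ hE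
    exact ⟨a, h1, h2, h3⟩
  choose a haS haE haσ using hch
  have hmin : ∀ ξ : Y, ∃ i, a ξ ≤ f i ∧ ∀ j, a ξ ≤ f j → f i ≤ f j := by
    intro ξ
    have hne : {x | ∃ i, f i = x ∧ a ξ ≤ x}.Nonempty := by
      obtain ⟨i, hi⟩ := hcof _ (haσ ξ)
      exact ⟨f i, i, rfl, hi⟩
    obtain ⟨i, hi, hi'⟩ := csInf_mem hne
    refine ⟨i, hi ▸ hi', fun j hj => ?_⟩
    rw [hi]
    exact csInf_le' ⟨j, rfl, hj⟩
  choose m hm1 hm2 using hmin
  have key : ∀ ξ η : Y, a ξ < a η → f (m ξ) < f (m η) := by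
    intro ξ η h
    obtain ⟨b, ⟨i, rfl⟩, h1, h2⟩ := (haE η).2 _ h
    exact (hm2 ξ i h1.le).trans_lt (h2.trans_le (hm1 η))
  have hinj : Function.Injective m := by
    intro ξ η h
    rcases lt_trichotomy (a ξ) (a η) with h1 | h1 | h1
    · exact absurd (key ξ η h1) (by rw [h]; exact lt_irrefl _)
    · exact Subtype.ext (hdis ξ ξ.2 η η.2 (a ξ) (haS ξ) (h1 ▸ haS η))
    · exact absurd (key η ξ h1) (by rw [h]; exact lt_irrefl _)
  rw [← hι]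
  have h1 := (Cardinal.lift_mk_le' (α := Y) (β := ι)).2 ⟨⟨m, hinj⟩⟩
  simpa using h1

end Pool.Agent.Helper66.HM
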